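import Mathlib

set_option autoImplicit false
set_option linter.unusedSectionVars false
set_option linter.unusedSimpArgs false

/-!
# The commutative local algebra of a symmetric trilinear form

For a symmetric trilinear form `g` on `F ^ U` the space `F ⊕ F ^ U ⊕ F ^ U ⊕ F` is a commutative
algebra `LA G`, in which the product of three elements of degree one is the value of `g`.
-/

namespace Pool.Agent.Helper85.Barrier

open Finset

/-- A symmetric trilinear form on `F ^ U`, given by its coefficients. -/
structure Sym3 (F U : Type*) where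
  /-- the coefficients -/
  g : U → U → U → F
  s12 : ∀ u v w, g u v w = g v u w
  s23 : ∀ u v w, g u v w = g u w v

variable {F U : Type*} [Field F] [Fintype U]

/-- The contraction of `g` with two vectors. -/
def Sym3.B (G : Sym3 F U) (x y : U → F) : U → F := fun w => ∑ u, ∑ v, G.g u v w * (x u * y v)

/-- The standard pairing. -/
def pr (x y : U → F) : F := ∑ u, x u * y u

theorem pr_add_left (x x' y : U → F) : pr (x + x') y = pr x y + pr x' y := by
  simp [pr, add_mul, Finset.sum_add_distrib]

theorem pr_add_right (x y y' : U → F) : pr x (y + y') = pr x y + pr x y' := by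
  simp [pr, mul_add, Finset.sum_add_distrib]

theorem pr_smul_left (c : F) (x y : U → F) : pr (c • x) y = c * pr x y := by
  simp only [pr, Pi.smul_apply, smul_eq_mul, Finset.mul_sum, mul_assoc]

theorem pr_smul_right (c : F) (x y : U → F) : pr x (c • y) = c * pr x y := by
  simp only [pr, Pi.smul_apply, smul_eq_mul, Finset.mul_sum]
  exact Finset.sum_congr rfl fun u _ => by ring

theorem pr_comm (x y : U → F) : pr x y = pr y x := by
  simp only [pr, mul_comm]

theorem pr_zero_left (y : U → F) : pr 0 y = 0 := by simp [pr]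

theorem pr_zero_right (y : U → F) : pr y 0 = 0 := by simp [pr]

namespace Sym3

variable (G : Sym3 F U)

theorem B_comm (x y : U → F) : G.B x y = G.B y x := by
  funext w
  unfold B
  rw [Finset.sum_comm]
  refine Finset.sum_congr rfl fun u _ => Finset.sum_congr rfl fun v _ => ?_
  rw [G.s12]
  ring

theorem B_add_left (x x' y : U → F) : G.B (x + x') y = G.B x y + G.B x' y := by
  funext w
  simp [B, add_mul, mul_add, Finset.sum_add_distrib]

theorem B_add_right (x y y' : U → F) : G.B x (y + y') = G.B x y + G.B x y' := by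
  rw [B_comm, B_add_left, B_comm G y, B_comm G y']

theorem B_smul_left (c : F) (x y : U → F) : G.B (c • x) y = c • G.B x y := by
  funext w
  simp only [B, Pi.smul_apply, smul_eq_mul, Finset.mul_sum]
  refine Finset.sum_congr rfl fun u _ => Finset.sum_congr rfl fun v _ => by ring

theorem B_smul_right (c : F) (x y : U → F) : G.B x (c • y) = c • G.B x y := by
  rw [B_comm, B_smul_left, B_comm G y]

theorem B_zero_left (y : U → F) : G.B 0 y = 0 := by
  funext w
  simp [B]

theorem B_zero_right (y : U → F) : G.B y 0 = 0 := by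
  rw [B_comm, B_zero_left]

theorem pr_B (x y z : U → F) : pr (G.B x y) z = ∑ u, ∑ v, ∑ w, G.g u v w * (x u * y v * z w) := by
  unfold pr B
  simp only [Finset.sum_mul]
  rw [Finset.sum_comm]
  refine Finset.sum_congr rfl fun u _ => ?_
  rw [Finset.sum_comm]
  refine Finset.sum_congr rfl fun v _ => Finset.sum_congr rfl fun w _ => by ring

theorem pr_B_symm (x y z : U → F) : pr (G.B x y) z = pr (G.B z y) x := by
  rw [pr_B, pr_B]
  calc ∑ u, ∑ v, ∑ w, G.g u v w * (x u * y v * z w)
      = ∑ u, ∑ w, ∑ v, G.g u v w * (x u * y v * z w) :=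
        Finset.sum_congr rfl fun u _ => Finset.sum_comm
    _ = ∑ w, ∑ u, ∑ v, G.g u v w * (x u * y v * z w) := Finset.sum_comm
    _ = ∑ w, ∑ v, ∑ u, G.g u v w * (x u * y v * z w) :=
        Finset.sum_congr rfl fun w _ => Finset.sum_comm
    _ = ∑ w, ∑ v, ∑ u, G.g w v u * (z w * y v * x u) := by
        refine Finset.sum_congr rfl fun w _ => Finset.sum_congr rfl fun v _ =>
          Finset.sum_congr rfl fun u _ => ?_
        rw [G.s12 u v w, G.s23 v u w, G.s12 v w u]
        ring

end Sym3

/-- The local algebra of a symmetric trilinear form: `F ⊕ F ^ U ⊕ F ^ U ⊕ F`. -/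
@[ext] structure LA (G : Sym3 F U) where
  /-- degree zero -/
  a : F
  /-- degree one -/
  b : U → F
  /-- degree two -/
  c : U → F
  /-- degree three -/
  d : F

namespace LA

variable {G : Sym3 F U}

instance : Zero (LA G) := ⟨⟨0, 0, 0, 0⟩⟩
instance : One (LA G) := ⟨⟨1, 0, 0, 0⟩⟩
instance : Add (LA G) := ⟨fun p q => ⟨p.a + q.a, p.b + q.b, p.c + q.c, p.d + q.d⟩⟩
instance : Neg (LA G) := ⟨fun p => ⟨-p.a, -p.b, -p.c, -p.d⟩⟩
instance : Mul (LA G) := ⟨fun p q =>
  ⟨p.a * q.a, p.a • q.b + q.a • p.b, p.a • q.c + q.a • p.c + G.B p.b q.b,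
    p.a * q.d + q.a * p.d + (pr p.b q.c + pr q.b p.c)⟩⟩

@[simp] theorem zero_a : (0 : LA G).a = 0 := rfl
@[simp] theorem zero_b : (0 : LA G).b = 0 := rfl
@[simp] theorem zero_c : (0 : LA G).c = 0 := rfl
@[simp] theorem zero_d : (0 : LA G).d = 0 := rfl
@[simp] theorem one_a : (1 : LA G).a = 1 := rfl
@[simp] theorem one_b : (1 : LA G).b = 0 := rfl
@[simp] theorem one_c : (1 : LA G).c = 0 := rfl
@[simp] theorem one_d : (1 : LA G).d = 0 := rfl
@[simp] theorem add_a (p q : LA G) : (p + q).a = p.a + q.a := rfl
@[simp] theorem add_b (p q : LA G) : (p + q).b = p.b + q.b := rfl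
@[simp] theorem add_c (p q : LA G) : (p + q).c = p.c + q.c := rfl
@[simp] theorem add_d (p q : LA G) : (p + q).d = p.d + q.d := rfl
@[simp] theorem neg_a (p : LA G) : (-p).a = -p.a := rfl
@[simp] theorem neg_b (p : LA G) : (-p).b = -p.b := rfl
@[simp] theorem neg_c (p : LA G) : (-p).c = -p.c := rfl
@[simp] theorem neg_d (p : LA G) : (-p).d = -p.d := rfl
@[simp] theorem mul_a (p q : LA G) : (p * q).a = p.a * q.a := rfl
@[simp] theorem mul_b (p q : LA G) : (p * q).b = p.a • q.b + q.a • p.b := rfl
@[simp] theorem mul_c (p q : LA G) :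
    (p * q).c = p.a • q.c + q.a • p.c + G.B p.b q.b := rfl
@[simp] theorem mul_d (p q : LA G) :
    (p * q).d = p.a * q.d + q.a * p.d + (pr p.b q.c + pr q.b p.c) := rfl

theorem mul_comm' (p q : LA G) : p * q = q * p := by
  ext
  · simp [mul_comm]
  · simp [add_comm]
  · simp only [mul_c, G.B_comm p.b q.b, add_comm (p.a • q.c)]
  · simp only [mul_d]
    ring

theorem mul_add' (p q r : LA G) : p * (q + r) = p * q + p * r := by
  ext u
  · simp [mul_add]
  · simp [mul_add, add_mul]; ring
  · simp [mul_add, add_mul, G.B_add_right]; ring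
  · simp only [mul_d, add_a, add_b, add_c, add_d, pr_add_left, pr_add_right]
    ring

theorem mul_assoc' (p q r : LA G) : p * q * r = p * (q * r) := by
  ext u
  · simp [mul_assoc]
  · simp; ring
  · simp [G.B_add_left, G.B_add_right, G.B_smul_left, G.B_smul_right]; ring
  · simp only [mul_d, mul_a, mul_b, mul_c, pr_add_left, pr_add_right, pr_smul_left,
      pr_smul_right]
    rw [pr_comm r.b (G.B p.b q.b), G.pr_B_symm p.b q.b r.b, pr_comm (G.B r.b q.b) p.b,
      G.B_comm r.b q.b]
    ring

instance : CommRing (LA G) where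
  add_assoc p q r := by ext <;> simp [add_assoc]
  zero_add p := by ext <;> simp
  add_zero p := by ext <;> simp
  add_comm p q := by ext <;> simp [add_comm]
  neg_add_cancel p := by ext <;> simp
  nsmul := nsmulRec
  zsmul := zsmulRec
  mul_comm := mul_comm'
  mul_assoc := mul_assoc'
  one_mul p := by ext <;> simp [G.B_zero_left, pr_zero_left, pr_zero_right]
  mul_one p := by ext <;> simp [G.B_zero_right, pr_zero_left, pr_zero_right]
  zero_mul p := by ext <;> simp [G.B_zero_left, pr_zero_left, pr_zero_right]
  mul_zero p := by ext <;> simp [G.B_zero_right, pr_zero_left, pr_zero_right]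
  left_distrib := mul_add'
  right_distrib p q r := by rw [mul_comm', mul_add', mul_comm' r p, mul_comm' r q]

/-- the constants -/
def cst (G : Sym3 F U) : F →+* LA G where
  toFun x := ⟨x, 0, 0, 0⟩
  map_one' := rfl
  map_zero' := rfl
  map_mul' x y := by
    ext <;> simp [G.B_zero_right, pr_zero_left]
  map_add' x y := by ext <;> simp

/-- the augmentation -/
def aug (G : Sym3 F U) : LA G →+* F where
  toFun p := p.a
  map_one' := rfl
  map_zero' := rfl
  map_mul' _ _ := rfl
  map_add' _ _ := rfl

/-- the coefficient of degree three, as an additive map -/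
def top (G : Sym3 F U) : LA G →+ F where
  toFun p := p.d
  map_zero' := rfl
  map_add' _ _ := rfl

theorem top_cst_mul (x : F) (p : LA G) : top G (cst G x * p) = x * top G p := by
  show (cst G x * p).d = x * p.d
  rw [mul_d]
  show x * p.d + p.a * 0 + (pr 0 p.c + pr p.b 0) = x * p.d
  rw [pr_zero_left, pr_zero_right]
  ring

/-- an element with nonzero augmentation is a unit -/
theorem isUnit_of_aug {p : LA G} (h : p.a ≠ 0) : IsUnit p := by
  have h0 : ∀ q : LA G, q.a = 0 → IsNilpotent q := by
    intro q hq
    refine ⟨4, ?_⟩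
    have h2 : (q * q) = ⟨0, 0, G.B q.b q.b, 2 * pr q.b q.c⟩ := by
      ext u
      · simp [hq]
      · simp [hq]
      · simp [hq]
      · simp [hq]; ring
    have h4 : q ^ 4 = (q * q) * (q * q) := by ring
    rw [h4, h2]
    ext u
    · simp
    · simp
    · simp [G.B_zero_left]
    · simp [pr_zero_left]
  have h1 : IsNilpotent (p - cst G p.a) := by
    apply h0
    show (p + -(cst G p.a)).a = 0
    show p.a + -p.a = 0
    ring
  have h2 : IsUnit (cst G p.a) := (isUnit_iff_ne_zero.2 h).map (cst G)
  have h3 : p = cst G p.a + (p - cst G p.a) := by ring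
  rw [h3]
  exact IsNilpotent.isUnit_add_left_of_commute h1 h2 (Commute.all _ _)

end LA

end Pool.Agent.Helper85.Barrier
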