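import Mathlib
import Pool.Agent.Helper85.Barrier.Alg

set_option autoImplicit false
set_option linter.unusedSectionVars false

/-!
# Rank methods and restrictions of symmetric trilinear forms

If all matrices `φ (x ⊗ y ⊗ z)` have rank at most `r` and `T` is a restriction of a symmetric
trilinear form in `#U` variables, then `φ T` has rank at most `(2 #U + 2) r`.
-/

namespace Pool.Agent.Helper85.Barrier

open Finset Matrix

section Fact

variable {S p q : Type*} [CommRing S]

/-- A matrix with an invertible minor of order `s`, all of whose minors of order `s + 1` are zero,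
is a product of a matrix with `s` columns and a matrix with `s` rows. -/
theorem exists_factor (M : Matrix p q S) (s : ℕ) (e : Fin s → p) (f : Fin s → q)
    (hu : IsUnit (M.submatrix e f).det)
    (h0 : ∀ (e' : Fin s ⊕ Unit → p) (f' : Fin s ⊕ Unit → q), (M.submatrix e' f').det = 0) :
    ∃ (P : Matrix p (Fin s) S) (Q : Matrix (Fin s) q S), ∀ i j, M i j = ∑ t, P i t * Q t j := by
  classical
  set A := M.submatrix e f with hA
  let _ : Invertible A := A.invertibleOfIsUnitDet hu
  refine ⟨M.submatrix id f * ⅟A, M.submatrix e id, ?_⟩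
  intro i j
  have h1 := h0 (Sum.elim e fun _ => i) (Sum.elim f fun _ => j)
  have h2 : M.submatrix (Sum.elim e fun _ : Unit => i) (Sum.elim f fun _ : Unit => j) =
      Matrix.fromBlocks A (M.submatrix e fun _ : Unit => j) (M.submatrix (fun _ : Unit => i) f)
        (M.submatrix (fun _ : Unit => i) fun _ : Unit => j) := by
    ext a b
    rcases a with a | a <;> rcases b with b | b <;> rfl
  rw [h2, Matrix.det_fromBlocks₁₁] at h1
  have h3 : (M.submatrix (fun _ : Unit => i) (fun _ : Unit => j) -
      M.submatrix (fun _ : Unit => i) f * ⅟A * M.submatrix e fun _ : Unit => j).det = 0 :=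
    (hu.mul_right_eq_zero).1 h1
  rw [Matrix.det_unique] at h3
  simp only [Matrix.sub_apply, Matrix.submatrix_apply] at h3
  rw [sub_eq_zero] at h3
  rw [h3]
  rfl

end Fact

section Top

variable {F U : Type*} [Field F] [Fintype U] {G : Sym3 F U} {p q : ℕ}

/-- The part of degree three of a product of matrices over the local algebra has small rank. -/
theorem rank_top_le (s : ℕ) (P : Matrix (Fin p) (Fin s) (LA G)) (Q : Matrix (Fin s) (Fin q) (LA G)) :
    (Matrix.of fun i j => LA.top G (∑ t, P i t * Q t j)).rank ≤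
      s * (2 * Fintype.card U + 2) := by
  classical
  let K := Fin s × ((Unit ⊕ Unit) ⊕ (U ⊕ U))
  let P' : Matrix (Fin p) K F := fun i k =>
    Sum.elim (Sum.elim (fun _ => (P i k.1).a) (fun _ => (P i k.1).d))
      (Sum.elim (P i k.1).b (P i k.1).c) k.2
  let Q' : Matrix K (Fin q) F := fun k j =>
    Sum.elim (Sum.elim (fun _ => (Q k.1 j).d) (fun _ => (Q k.1 j).a))
      (Sum.elim (Q k.1 j).c (Q k.1 j).b) k.2
  have h1 : (Matrix.of fun i j => LA.top G (∑ t, P i t * Q t j)) = P' * Q' := by
    ext i j
    rw [Matrix.of_apply, map_sum, Matrix.mul_apply, Fintype.sum_prod_type]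
    refine Finset.sum_congr rfl fun t _ => ?_
    rw [Fintype.sum_sum_type, Fintype.sum_sum_type, Fintype.sum_sum_type]
    show (P i t * Q t j).d = _
    rw [LA.mul_d]
    simp only [P', Q', Sum.elim_inl, Sum.elim_inr, Finset.univ_unique, Finset.sum_singleton, pr]
    have : ∀ u, (Q t j).b u * (P i t).c u = (P i t).c u * (Q t j).b u := fun u => mul_comm _ _
    simp only [this]
    ring
  rw [h1]
  refine (Matrix.rank_mul_le_left P' Q').trans ((Matrix.rank_le_card_width P').trans ?_)
  simp only [K, Fintype.card_prod, Fintype.card_sum, Fintype.card_fin, Fintype.card_unit]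
  apply le_of_eq
  ring

end Top

section Main

variable {F : Type*} [Field F] {A B C : Type*} [Fintype A] [Fintype B] [Fintype C]

/-- The tensor `x ⊗ y ⊗ z`. -/
def ten (x : A → F) (y : B → F) (z : C → F) : A → B → C → F := fun i j k => x i * y j * z k

open Classical in
/-- The basic tensors. -/
noncomputable def bas (F : Type*) [Field F] {A B C : Type*} (i : A) (j : B) (k : C) :
    A → B → C → F :=
  fun i' j' k' => if i' = i ∧ j' = j ∧ k' = k then 1 else 0

theorem expand (T : A → B → C → F) :
    T = ∑ i, ∑ j, ∑ k, T i j k • bas F i j k := by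
  classical
  funext a b c
  simp only [Finset.sum_apply, Pi.smul_apply, smul_eq_mul, bas]
  rw [Finset.sum_eq_single a, Finset.sum_eq_single b, Finset.sum_eq_single c]
  · simp
  · intro k _ hk
    rw [if_neg (by tauto), mul_zero]
  · simp
  · intro j _ hj
    refine Finset.sum_eq_zero fun k _ => ?_
    rw [if_neg (by tauto), mul_zero]
  · simp
  · intro i _ hi
    refine Finset.sum_eq_zero fun j _ => Finset.sum_eq_zero fun k _ => ?_
    rw [if_neg (by tauto), mul_zero]
  · simp

theorem expand_map {p q : ℕ} (φ : (A → B → C → F) →ₗ[F] Matrix (Fin p) (Fin q) F)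
    (T : A → B → C → F) (i : Fin p) (j : Fin q) :
    φ T i j = ∑ a, ∑ b, ∑ c, φ (bas F a b c) i j * T a b c := by
  conv_lhs => rw [expand T]
  simp only [map_sum, map_smul, Matrix.sum_apply, Matrix.smul_apply, smul_eq_mul]
  refine Finset.sum_congr rfl fun a _ => Finset.sum_congr rfl fun b _ =>
    Finset.sum_congr rfl fun c _ => mul_comm _ _

/-- the matrix with entries in `S` of the values of `φ` -/
noncomputable def big {S : Type*} [CommRing S] (ι : F →+* S) {p q : ℕ}
    (φ : (A → B → C → F) →ₗ[F] Matrix (Fin p) (Fin q) F) (x : A → S) (y : B → S) (z : C → S) :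
    Matrix (Fin p) (Fin q) S :=
  fun i j => ∑ a, ∑ b, ∑ c, ι (φ (bas F a b c) i j) * (x a * y b * z c)

theorem big_map {S S' : Type*} [CommRing S] [CommRing S'] (ι : F →+* S) (θ : S →+* S') {p q : ℕ}
    (φ : (A → B → C → F) →ₗ[F] Matrix (Fin p) (Fin q) F) (x : A → S) (y : B → S) (z : C → S) :
    (big ι φ x y z).map θ = big (θ.comp ι) φ (θ ∘ x) (θ ∘ y) (θ ∘ z) := by
  ext i j
  simp [big, map_sum]

theorem big_id {p q : ℕ} (φ : (A → B → C → F) →ₗ[F] Matrix (Fin p) (Fin q) F)
    (x : A → F) (y : B → F) (z : C → F) :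
    big (RingHom.id F) φ x y z = φ (ten x y z) := by
  ext i j
  rw [expand_map]
  rfl

theorem card_le_rank {p q n : Type*} [Fintype p] [Fintype q] [Fintype n] [DecidableEq n]
    (M : Matrix p q F) (e : n → p) (f : n → q) (h : (M.submatrix e f).det ≠ 0) :
    Fintype.card n ≤ M.rank := by
  classical
  have h1 : M.submatrix e f = (1 : Matrix p p F).submatrix e id * M * (1 : Matrix q q F).submatrix id f := by
    ext i j
    simp [Matrix.mul_apply, Matrix.one_apply]
  have h2 : (M.submatrix e f).rank = Fintype.card n :=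
    Matrix.rank_of_isUnit _ ((Matrix.isUnit_iff_isUnit_det _).2 (isUnit_iff_ne_zero.2 h))
  rw [← h2, h1]
  exact (Matrix.rank_mul_le_left _ _).trans (Matrix.rank_mul_le_right _ _)

variable {U : Type*} [Fintype U]

/-- **Barrier.** A linear map from trilinear forms to matrices all of whose values on the products
of linear forms have rank at most `r` has rank at most `(2 #U + 2) r` on every restriction of a
symmetric trilinear form in `#U` variables. -/
theorem barrier [Infinite F] (G : Sym3 F U) {p q r : ℕ}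
    (φ : (A → B → C → F) →ₗ[F] Matrix (Fin p) (Fin q) F)
    (hr : ∀ x y z, (φ (ten x y z)).rank ≤ r)
    (α : A → U → F) (β : B → U → F) (γ : C → U → F) :
    (φ fun i j k => ∑ u, ∑ v, ∑ w, G.g u v w * (α i u * β j v * γ k w)).rank ≤
      (2 * Fintype.card U + 2) * r := by
  classical
  -- a maximal minor which is not zero
  let N : ℕ → Prop := fun s => ∃ (x : A → F) (y : B → F) (z : C → F) (e : Fin s → Fin p)
    (f : Fin s → Fin q), ((φ (ten x y z)).submatrix e f).det ≠ 0
  have hN0 : N 0 := ⟨0, 0, 0, Fin.elim0, Fin.elim0, by simp⟩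
  have hNr : ∀ s, N s → s ≤ r := by
    rintro s ⟨x, y, z, e, f, h⟩
    have h1 := card_le_rank _ e f h
    rw [Fintype.card_fin] at h1
    exact h1.trans (hr x y z)
  obtain ⟨s, hs, hs'⟩ : ∃ s, N s ∧ ¬ N (s + 1) := by
    by_contra hcon
    push Not at hcon
    have : ∀ s, N s := fun s => Nat.rec hN0 (fun t ht => hcon t ht) s
    have := hNr _ (this (r + 1))
    omega
  obtain ⟨x₀, y₀, z₀, e, f, hdet⟩ := hs
  -- all larger minors vanish at all points over `F`
  have hvan : ∀ (x : A → F) (y : B → F) (z : C → F) (e' : Fin s ⊕ Unit → Fin p)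
      (f' : Fin s ⊕ Unit → Fin q), ((φ (ten x y z)).submatrix e' f').det = 0 := by
    intro x y z e' f'
    by_contra hne
    apply hs'
    have hc : Fintype.card (Fin s ⊕ Unit) = s + 1 := by simp
    let E : Fin (s + 1) ≃ Fin s ⊕ Unit := (Fintype.equivFinOfCardEq hc).symm
    refine ⟨x, y, z, e' ∘ E, f' ∘ E, ?_⟩
    have h1 : (φ (ten x y z)).submatrix (e' ∘ E) (f' ∘ E) =
        ((φ (ten x y z)).submatrix e' f').submatrix E E := rfl
    rw [h1, Matrix.det_submatrix_equiv_self]
    exact hne
  -- the polynomial matrix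
  let W := A ⊕ B ⊕ C
  let R := MvPolynomial W F
  let 𝕄 : Matrix (Fin p) (Fin q) R := big (MvPolynomial.C (σ := W)) φ
    (fun a => MvPolynomial.X (Sum.inl a)) (fun b => MvPolynomial.X (Sum.inr (Sum.inl b)))
    (fun c => MvPolynomial.X (Sum.inr (Sum.inr c)))
  have hpoly : ∀ (e' : Fin s ⊕ Unit → Fin p) (f' : Fin s ⊕ Unit → Fin q),
      (𝕄.submatrix e' f').det = 0 := by
    intro e' f'
    apply MvPolynomial.funext
    intro v
    rw [map_zero]
    have h1 : MvPolynomial.eval v (𝕄.submatrix e' f').det =
        ((𝕄.map (MvPolynomial.eval v)).submatrix e' f').det := by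
      rw [RingHom.map_det]
      rfl
    rw [h1]
    have h2 : 𝕄.map (MvPolynomial.eval v) = φ (ten (fun a => v (Sum.inl a))
        (fun b => v (Sum.inr (Sum.inl b))) (fun c => v (Sum.inr (Sum.inr c)))) := by
      rw [← big_id]
      have h3 := big_map (MvPolynomial.C (σ := W)) (MvPolynomial.eval v) φ
        (fun a => MvPolynomial.X (Sum.inl a)) (fun b => MvPolynomial.X (Sum.inr (Sum.inl b)))
        (fun c => MvPolynomial.X (Sum.inr (Sum.inr c)))
      rw [show 𝕄.map (MvPolynomial.eval v) = _ from h3]
      have h4 : (MvPolynomial.eval v).comp (MvPolynomial.C (σ := W)) = RingHom.id F := by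
        ext t
        simp
      rw [h4]
      congr 1
      · funext a; simp
      · funext a; simp
      · funext a; simp
    rw [h2]
    exact hvan _ _ _ e' f'
  -- the point over the local algebra
  let X : A → LA G := fun i => ⟨x₀ i, α i, 0, 0⟩
  let Y : B → LA G := fun i => ⟨y₀ i, β i, 0, 0⟩
  let Z : C → LA G := fun i => ⟨z₀ i, γ i, 0, 0⟩
  let M : Matrix (Fin p) (Fin q) (LA G) := big (LA.cst G) φ X Y Z
  have hM : M = 𝕄.map (MvPolynomial.eval₂Hom (LA.cst G) (Sum.elim X (Sum.elim Y Z))) := by
    have h3 := big_map (MvPolynomial.C (σ := W))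
      (MvPolynomial.eval₂Hom (LA.cst G) (Sum.elim X (Sum.elim Y Z))) φ
      (fun a => MvPolynomial.X (Sum.inl a)) (fun b => MvPolynomial.X (Sum.inr (Sum.inl b)))
      (fun c => MvPolynomial.X (Sum.inr (Sum.inr c)))
    rw [show 𝕄.map _ = _ from h3]
    have h4 : (MvPolynomial.eval₂Hom (LA.cst G) (Sum.elim X (Sum.elim Y Z))).comp
        (MvPolynomial.C (σ := W)) = LA.cst G := by
      ext t <;> simp
    rw [h4]
    show big (LA.cst G) φ X Y Z = _
    congr 1
    · funext a; simp
    · funext a; simp
    · funext a; simp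
  have hminor : ∀ (e' : Fin s ⊕ Unit → Fin p) (f' : Fin s ⊕ Unit → Fin q),
      (M.submatrix e' f').det = 0 := by
    intro e' f'
    have h1 := congrArg (MvPolynomial.eval₂Hom (LA.cst G) (Sum.elim X (Sum.elim Y Z)))
      (hpoly e' f')
    rw [map_zero, RingHom.map_det] at h1
    rw [hM]
    exact h1
  have hunit : IsUnit (M.submatrix e f).det := by
    apply LA.isUnit_of_aug
    have h1 : (M.submatrix e f).det.a = LA.aug G (M.submatrix e f).det := rfl
    rw [h1, RingHom.map_det]
    have h2 : (LA.aug G).mapMatrix (M.submatrix e f) = (φ (ten x₀ y₀ z₀)).submatrix e f := by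
      rw [← big_id]
      have h3 := big_map (LA.cst G) (LA.aug G) φ X Y Z
      have h4 : (LA.aug G).comp (LA.cst G) = RingHom.id F := by
        ext t
        rfl
      rw [h4] at h3
      have h5 : (LA.aug G).mapMatrix (M.submatrix e f) = (M.map (LA.aug G)).submatrix e f := rfl
      rw [h5, show M.map (LA.aug G) = _ from h3]
      rfl
    rw [h2]
    exact hdet
  obtain ⟨P, Q, hPQ⟩ := exists_factor M s e f hunit hminor
  have htop : (φ fun i j k => ∑ u, ∑ v, ∑ w, G.g u v w * (α i u * β j v * γ k w)) =
      Matrix.of fun i j => LA.top G (∑ t, P i t * Q t j) := by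
    ext i j
    rw [Matrix.of_apply, ← hPQ i j, expand_map]
    show _ = LA.top G (∑ a, ∑ b, ∑ c, LA.cst G (φ (bas F a b c) i j) * (X a * Y b * Z c))
    simp only [map_sum, LA.top_cst_mul]
    refine Finset.sum_congr rfl fun a _ => Finset.sum_congr rfl fun b _ =>
      Finset.sum_congr rfl fun c _ => ?_
    congr 1
    show _ = (X a * Y b * Z c).d
    simp only [X, Y, Z, LA.mul_d, LA.mul_c, LA.mul_b, LA.mul_a, smul_zero, mul_zero, add_zero,
      zero_add, pr_zero_right, G.pr_B]
    rw [pr_comm, G.pr_B]
  rw [htop]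
  refine (rank_top_le s P Q).trans ?_
  rw [mul_comm]
  exact Nat.mul_le_mul_left _ (hNr s ⟨x₀, y₀, z₀, e, f, hdet⟩)

end Main

end Pool.Agent.Helper85.Barrier
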