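import Mathlib
import Pool.Agent.Helper85.Barrier.Rank

set_option autoImplicit false
set_option linter.unusedSectionVars false

/-!
# Matrix multiplication as a restriction of a symmetric trilinear form

The trilinear form `tr (X Y Z)` on matrices with rows and columns indexed by `H ⊕ G` is a
restriction of a symmetric trilinear form in `4 #H #G + 3 #G ^ 2` variables, if `H` embeds in `G`.
-/

namespace Pool.Agent.Helper85.Barrier

/-- The coefficients of the trilinear form `tr (X Y Z)` on matrices with rows and columns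
indexed by `n`. -/
def MM (F : Type*) [Zero F] [One F] (n : Type*) [DecidableEq n] :
    n × n → n × n → n × n → F :=
  fun x y z => if x.2 = y.1 ∧ y.2 = z.1 ∧ z.2 = x.1 then 1 else 0

/-- The variables of the symmetric form. -/
inductive V (H G : Type)
  | T : H → G → V H G
  | P : G → G → V H G
  | Q : G → G → V H G
  | R : G → G → V H G
  | SX : G → H → V H G
  | SY : G → H → V H G
  | SZ : G → H → V H G

namespace V

variable {H G : Type}

/-- the variables form a disjoint union of seven products -/
def equiv : V H G ≃ (H × G) ⊕ ((G × G) ⊕ ((G × G) ⊕ ((G × G) ⊕ ((G × H) ⊕ ((G × H) ⊕ (G × H))))))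
    where
  toFun
    | T h g => .inl (h, g)
    | P g g' => .inr (.inl (g, g'))
    | Q g g' => .inr (.inr (.inl (g, g')))
    | R g g' => .inr (.inr (.inr (.inl (g, g'))))
    | SX g h => .inr (.inr (.inr (.inr (.inl (g, h)))))
    | SY g h => .inr (.inr (.inr (.inr (.inr (.inl (g, h))))))
    | SZ g h => .inr (.inr (.inr (.inr (.inr (.inr (g, h))))))
  invFun
    | .inl (h, g) => T h g
    | .inr (.inl (g, g')) => P g g'
    | .inr (.inr (.inl (g, g'))) => Q g g'
    | .inr (.inr (.inr (.inl (g, g')))) => R g g'
    | .inr (.inr (.inr (.inr (.inl (g, h))))) => SX g h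
    | .inr (.inr (.inr (.inr (.inr (.inl (g, h)))))) => SY g h
    | .inr (.inr (.inr (.inr (.inr (.inr (g, h)))))) => SZ g h
  left_inv x := by cases x <;> rfl
  right_inv x := by
    rcases x with x | x | x | x | x | x | x <;> rfl

instance [Fintype H] [Fintype G] : Fintype (V H G) := Fintype.ofEquiv _ equiv.symm

theorem card [Fintype H] [Fintype G] : Fintype.card (V H G) =
    4 * (Fintype.card H * Fintype.card G) + 3 * Fintype.card G ^ 2 := by
  rw [Fintype.card_congr (equiv (H := H) (G := G))]
  simp only [Fintype.card_sum, Fintype.card_prod]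
  ring

/-- the products of three variables which occur in the form, in a fixed order -/
def rel (ι : H → G) : V H G → V H G → V H G → Prop
  | P a b, Q c d, R e f => b = c ∧ d = e ∧ f = a
  | P a b, T h g, SZ g' h' => a = ι h' ∧ b = ι h ∧ g = g'
  | P a b, T h g, SX g' h' => h' = h ∧ g = a ∧ b = g'
  | Q a b, T h g, SX g' h' => a = ι h' ∧ b = ι h ∧ g = g'
  | Q a b, T h g, SY g' h' => b = g' ∧ h' = h ∧ g = a
  | R a b, T h g, SY g' h' => a = ι h' ∧ b = ι h ∧ g = g'
  | R a b, T h g, SZ g' h' => g = a ∧ b = g' ∧ h' = h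
  | _, _, _ => False

open Classical in
/-- the symmetric form -/
noncomputable def form (F : Type*) [Zero F] [One F] (ι : H → G) : Sym3 F (V H G) where
  g u v w := if rel ι u v w ∨ rel ι u w v ∨ rel ι v u w ∨ rel ι v w u ∨ rel ι w u v ∨
    rel ι w v u then 1 else 0
  s12 u v w := by
    apply if_congr _ rfl rfl
    tauto
  s23 u v w := by
    apply if_congr _ rfl rfl
    tauto

/-- where the entries of the first matrix go -/
def fa (ι : H → G) : (H ⊕ G) × (H ⊕ G) → V H G
  | (.inl i, .inl j) => P (ι i) (ι j)
  | (.inl i, .inr g) => T i g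
  | (.inr g, .inr g') => Q g g'
  | (.inr g, .inl h) => SX g h

/-- where the entries of the second matrix go -/
def fb (ι : H → G) : (H ⊕ G) × (H ⊕ G) → V H G
  | (.inl i, .inl j) => Q (ι i) (ι j)
  | (.inl i, .inr g) => T i g
  | (.inr g, .inr g') => R g g'
  | (.inr g, .inl h) => SY g h

/-- where the entries of the third matrix go -/
def fc (ι : H → G) : (H ⊕ G) × (H ⊕ G) → V H G
  | (.inl i, .inl j) => R (ι i) (ι j)
  | (.inl i, .inr g) => T i g
  | (.inr g, .inr g') => P g g'
  | (.inr g, .inl h) => SZ g h

/-- **Matrix multiplication is a restriction of the symmetric form.** -/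
theorem MM_eq (F : Type*) [Zero F] [One F] [DecidableEq H] [DecidableEq G] (ι : H → G)
    (hι : Function.Injective ι) (x y z : (H ⊕ G) × (H ⊕ G)) :
    MM F (H ⊕ G) x y z = (form F ι).g (fa ι x) (fb ι y) (fc ι z) := by
  classical
  obtain ⟨x1, x2⟩ := x
  obtain ⟨y1, y2⟩ := y
  obtain ⟨z1, z2⟩ := z
  unfold MM form
  refine if_congr ?_ rfl rfl
  rcases x1 with x1 | x1 <;> rcases x2 with x2 | x2 <;> rcases y1 with y1 | y1 <;>
    rcases y2 with y2 | y2 <;> rcases z1 with z1 | z1 <;> rcases z2 with z2 | z2 <;>
    simp only [fa, fb, fc, rel, hι.eq_iff, Sum.inl.injEq, Sum.inr.injEq, reduceCtorEq,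
      false_and, and_false, or_false, false_or, and_true, true_and] <;>
    first
    | done
    | (constructor <;> rintro ⟨h1, h2, h3⟩ <;> subst_vars <;> simp)
    | tauto

end V

end Pool.Agent.Helper85.Barrier
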